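import Pool.Agent.N874.PP.Def

/-!
# Project PP (helper874): few bad curves, `S_BAD` from `S_BOX`, `S_BOX0`, `S_ORB` (helper152)
-/

set_option autoImplicit false
set_option linter.all false

open Polynomial IsDedekindDomain
open scoped Classical

namespace Pool.Agent.N152.PP

open Pool.Agent.N874.PP

theorem ncard_biUnion_le {α : Type} (P : ℕ → Set α) (n : ℕ) :
    (⋃ m ∈ Finset.range n, P m).ncard ≤ ∑ m ∈ Finset.range n, (P m).ncard := by
  induction n with
  | zero => simp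
  | succ n ih =>
    rw [Finset.range_add_one, Finset.set_biUnion_insert,
      Finset.sum_insert Finset.notMem_range_self]
    exact (Set.ncard_union_le _ _).trans (Nat.add_le_add_left ih _)

theorem four_le_card (k : Type) [Field k] [Finite k] (h6 : (6 : k) ≠ 0) : 4 ≤ Nat.card k := by
  have : Fintype k := Fintype.ofFinite k
  have h1 : (Nat.card k : k) = 0 := by
    rw [Nat.card_eq_fintype_card]
    exact FiniteField.cast_card_eq_zero k
  have h2 : 1 < Nat.card k := Finite.one_lt_card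
  by_contra hcon
  push Not at hcon
  have h3 : Nat.card k = 2 ∨ Nat.card k = 3 := by omega
  rcases h3 with h3 | h3
  · rw [h3] at h1
    apply h6
    have : (6 : k) = ((2 : ℕ) : k) * 3 := by norm_num
    rw [this, h1, zero_mul]
  · rw [h3] at h1
    apply h6
    have : (6 : k) = 2 * ((3 : ℕ) : k) := by norm_num
    rw [this, h1, mul_zero]

theorem half_sum (n : ℕ) : ∑ m ∈ Finset.range n, (1 / 2 : ℝ) ^ (m + 1) = 1 - (1 / 2) ^ n := by
  induction n with
  | zero => simp
  | succ n ih =>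
    rw [Finset.sum_range_succ, ih, pow_succ]
    ring

theorem bad (h1 : S_BOX) (h2 : S_BOX0) (h3 : S_ORB) : S_BAD := by
  intro k _ _ h6 S s hS
  have hq := four_le_card k h6
  obtain ⟨A, hA⟩ : ∃ A : ℕ, A = 2 ^ S.card * ∏ Q ∈ S, nm Q ^ 2 := ⟨_, rfl⟩
  obtain ⟨q, hqd⟩ : ∃ q : ℕ, q = Nat.card k := ⟨_, rfl⟩
  refine ⟨A + (∏ Q ∈ S, Q).natDegree, fun N hN => ?_⟩
  let P : ℕ → Set (k[X] × k[X]) := fun m =>
    {p : k[X] × k[X] | ∃ B : Tup k[X], Xset N m S s B ∧ B.x ≠ 0 ∧ chA B = p.1 ∧ chB B = p.2}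
  have hPfin : ∀ m ≤ N, (P m).Finite := by
    intro m hm
    refine ((h2 k S s N m hm).1.image fun B => (chA B, chB B)).subset ?_
    rintro p ⟨B, hB, _, ha, hb⟩
    exact ⟨B, hB, Prod.ext ha hb⟩
  have hsub : {p : k[X] × k[X] | LBad N S s p.1 p.2} ⊆ ⋃ m ∈ Finset.range (N + 1), P m := by
    rintro p ⟨m, hm, B, hB⟩
    rw [Set.mem_iUnion₂]
    exact ⟨m, Finset.mem_range.2 (by omega), B, hB⟩
  have hfin : (⋃ m ∈ Finset.range (N + 1), P m).Finite := by
    refine Set.Finite.biUnion (Finset.finite_toSet _) fun m hm => hPfin m ?_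
    have := Finset.mem_range.1 (Finset.mem_coe.1 hm)
    omega
  have hle : {p : k[X] × k[X] | LBad N S s p.1 p.2}.ncard ≤
      ∑ m ∈ Finset.range (N + 1), (P m).ncard :=
    (Set.ncard_le_ncard hsub hfin).trans (ncard_biUnion_le P (N + 1))
  -- each term
  have hterm : ∀ m ∈ Finset.range (N + 1),
      (A : ℝ) * ((P m).ncard : ℝ) ≤ (q : ℝ) ^ (10 * N + 5) * (1 / 2) ^ (m + 1) := by
    intro m hm
    have hmN : m ≤ N := by
      have := Finset.mem_range.1 hm
      omega
    have ho : (P m).ncard * q ^ (m + 1) ≤ {B : Tup k[X] | Xset N m S s B}.ncard := by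
      rw [hqd]
      exact h3 k h6 S s N m hmN
    have key : A * (P m).ncard * 2 ^ (m + 1) ≤ q ^ (10 * N + 5) := by
      by_cases hg : (∏ Q ∈ S, Q).natDegree + 2 * m ≤ 2 * N
      · have hb := h1 k h6 S s hS N m hmN hg
        rw [← hA, ← hqd] at hb
        calc A * (P m).ncard * 2 ^ (m + 1) ≤ A * (P m).ncard * q ^ (m + 1) :=
              Nat.mul_le_mul_left _ (Nat.pow_le_pow_left (by omega) _)
          _ = A * ((P m).ncard * q ^ (m + 1)) := by ring
          _ ≤ A * {B : Tup k[X] | Xset N m S s B}.ncard := Nat.mul_le_mul_left _ ho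
          _ ≤ q ^ (10 * N + 5) := hb
      · have hb := (h2 k S s N m hmN).2
        rw [← hqd] at hb
        have hAm : A ≤ 2 ^ (m + 1) := by
          have h5 : A ≤ m := by omega
          have h6 : m < 2 ^ m := Nat.lt_two_pow_self
          have h7 : 2 ^ m ≤ 2 ^ (m + 1) := Nat.pow_le_pow_right (by norm_num) (by omega)
          omega
        calc A * (P m).ncard * 2 ^ (m + 1) ≤ 2 ^ (m + 1) * (P m).ncard * 2 ^ (m + 1) :=
              Nat.mul_le_mul_right _ (Nat.mul_le_mul_right _ hAm)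
          _ = (P m).ncard * (2 * 2) ^ (m + 1) := by rw [mul_pow]; ring
          _ ≤ (P m).ncard * q ^ (m + 1) :=
              Nat.mul_le_mul_left _ (Nat.pow_le_pow_left (by omega) _)
          _ ≤ {B : Tup k[X] | Xset N m S s B}.ncard := ho
          _ ≤ q ^ (10 * N + 5) := hb
    have key' : (A : ℝ) * ((P m).ncard : ℝ) * 2 ^ (m + 1) ≤ (q : ℝ) ^ (10 * N + 5) := by
      exact_mod_cast key
    have h8 : (1 / 2 : ℝ) ^ (m + 1) = 1 / 2 ^ (m + 1) := by rw [one_div_pow]
    rw [h8, mul_one_div, le_div_iff₀ (by positivity)]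
    exact key'
  have hsum : (A : ℝ) * ({p : k[X] × k[X] | LBad N S s p.1 p.2}.ncard : ℝ) ≤
      (q : ℝ) ^ (10 * N + 5) := by
    have h5 : ({p : k[X] × k[X] | LBad N S s p.1 p.2}.ncard : ℝ) ≤
        ∑ m ∈ Finset.range (N + 1), ((P m).ncard : ℝ) := by exact_mod_cast hle
    calc (A : ℝ) * ({p : k[X] × k[X] | LBad N S s p.1 p.2}.ncard : ℝ) ≤
        A * ∑ m ∈ Finset.range (N + 1), ((P m).ncard : ℝ) :=
          mul_le_mul_of_nonneg_left h5 (Nat.cast_nonneg A)
      _ = ∑ m ∈ Finset.range (N + 1), (A : ℝ) * ((P m).ncard : ℝ) := Finset.mul_sum _ _ _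
      _ ≤ ∑ m ∈ Finset.range (N + 1), (q : ℝ) ^ (10 * N + 5) * (1 / 2) ^ (m + 1) :=
          Finset.sum_le_sum hterm
      _ = (q : ℝ) ^ (10 * N + 5) * (1 - (1 / 2) ^ (N + 1)) := by
          rw [← Finset.mul_sum, half_sum]
      _ ≤ (q : ℝ) ^ (10 * N + 5) * 1 := by
          refine mul_le_mul_of_nonneg_left ?_ (by positivity)
          have : (0 : ℝ) ≤ (1 / 2) ^ (N + 1) := by positivity
          linarith
      _ = _ := mul_one _
  have hsum' : A * {p : k[X] × k[X] | LBad N S s p.1 p.2}.ncard ≤ q ^ (10 * N + 5) := by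
    exact_mod_cast hsum
  rw [← hA, ← hqd]
  omega

end Pool.Agent.N152.PP
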